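import Mathlib
import Pool.Agent.U398.MV.Stm8

/-!
# Project MV8, package FIN8
-/

set_option autoImplicit false

namespace Pool.Agent.U694.MV8

open MeasureTheory Set Pool.Agent.U398.MV

lemma Vv_cont (L : ℝ) (hL : 0 ≤ L) : Continuous (Vv L) := by
  show Continuous (fun p : ℝ × ℝ => 1 / Real.pi ^ 2 *
    Real.log (1 + |p.1 - p.2| * L / (2 * Real.pi)))
  apply Continuous.mul continuous_const
  apply Continuous.log
  · fun_prop
  · intro p
    have : 0 ≤ |p.1 - p.2| * L / (2 * Real.pi) := by positivity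
    positivity

lemma Cv_cont (L : ℝ) (hL : 0 ≤ L) :
    Continuous (fun z : (ℝ × ℝ) × (ℝ × ℝ) => Cv L z.1 z.2) := by
  have h := Vv_cont L hL
  show Continuous (fun z : (ℝ × ℝ) × (ℝ × ℝ) => 1 / 2 * (Vv L (z.1.1, z.2.2) +
    Vv L (z.1.2, z.2.1) - Vv L (z.1.1, z.2.1) - Vv L (z.1.2, z.2.2)))
  fun_prop

lemma moments {μ : Measure (ℝ × ℝ)} [IsProbabilityMeasure μ] {I : Set (ℝ × ℝ)}
    (hI : ∀ᵐ p ∂μ, p ∈ I) {V : ℝ × ℝ → ℝ} {W : ℝ × ℝ → ℝ × ℝ → ℝ} (hV : Continuous V)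
    (hW : Continuous (fun z : (ℝ × ℝ) × (ℝ × ℝ) => W z.1 z.2)) {D D' a b T : ℝ}
    (hVb : ∀ p ∈ I, 0 ≤ V p ∧ V p ≤ D) (hWb : ∀ p ∈ I, ∀ q ∈ I, W p q ^ 2 ≤ D')
    {A : ℝ × ℝ → ℝ} {E : ℝ × ℝ → ℝ × ℝ → ℝ} (hA : Integrable A μ)
    (hE1 : Integrable (fun p => ∫ q, E p q ∂μ) μ) (hE2 : ∀ p, Integrable (fun q => E p q) μ)
    (h1 : ∀ p ∈ I, T * (V p - a) ≤ A p)
    (h2 : ∀ p ∈ I, ∀ q ∈ I, E p q ≤ T * (V p * V q + 2 * W p q ^ 2 + b)) :
    T * ((∫ p, V p ∂μ) - a) ≤ ∫ p, A p ∂μ ∧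
    ∫ p, (∫ q, E p q ∂μ) ∂μ ≤
      T * ((∫ p, V p ∂μ) * (∫ p, V p ∂μ) + 2 * (∫ p, (∫ q, W p q ^ 2 ∂μ) ∂μ) + b) := by
  have iV : Integrable V μ := by
    refine Integrable.of_bound hV.aestronglyMeasurable D (hI.mono fun p hp => ?_)
    rw [Real.norm_eq_abs, abs_of_nonneg (hVb p hp).1]
    exact (hVb p hp).2
  have iW : ∀ p ∈ I, Integrable (fun q => W p q ^ 2) μ := by
    intro p hp
    have hc : Continuous (fun q => W p q ^ 2) :=
      (hW.comp (Continuous.prodMk continuous_const continuous_id)).pow 2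
    refine Integrable.of_bound hc.aestronglyMeasurable D' (hI.mono fun q hq => ?_)
    rw [Real.norm_eq_abs, abs_of_nonneg (sq_nonneg _)]
    exact hWb p hp q hq
  have ic : Integrable (fun p => ∫ q, W p q ^ 2 ∂μ) μ := by
    have hm : StronglyMeasurable (fun p => ∫ q, W p q ^ 2 ∂μ) :=
      (hW.pow 2).stronglyMeasurable.integral_prod_right'
    refine Integrable.of_bound hm.aestronglyMeasurable D' (hI.mono fun p hp => ?_)
    rw [Real.norm_eq_abs, abs_of_nonneg (integral_nonneg fun q => sq_nonneg _)]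
    calc ∫ q, W p q ^ 2 ∂μ ≤ ∫ q, D' ∂μ :=
          integral_mono_ae (iW p hp) (integrable_const _) (hI.mono fun q hq => hWb p hp q hq)
      _ = D' := by simp
  constructor
  · calc T * ((∫ p, V p ∂μ) - a) = ∫ p, T * (V p - a) ∂μ := by
          rw [integral_const_mul, integral_sub iV (integrable_const _)]
          simp
      _ ≤ ∫ p, A p ∂μ :=
          integral_mono_ae ((iV.sub (integrable_const _)).const_mul T) hA
            (hI.mono fun p hp => h1 p hp)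
  · have key : ∀ p ∈ I, ∫ q, E p q ∂μ ≤
        T * (V p * (∫ q, V q ∂μ) + 2 * (∫ q, W p q ^ 2 ∂μ) + b) := by
      intro p hp
      have i1 : Integrable (fun q => V p * V q) μ := iV.const_mul _
      have i2 : Integrable (fun q => 2 * W p q ^ 2) μ := (iW p hp).const_mul _
      have i12 : Integrable (fun q => V p * V q + 2 * W p q ^ 2) μ := i1.add i2
      calc ∫ q, E p q ∂μ ≤ ∫ q, T * (V p * V q + 2 * W p q ^ 2 + b) ∂μ :=
            integral_mono_ae (hE2 p) ((i12.add (integrable_const b)).const_mul T)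
              (hI.mono fun q hq => h2 p hp q hq)
        _ = _ := by
            rw [integral_const_mul, integral_add i12 (integrable_const _), integral_add i1 i2,
              integral_const_mul, integral_const_mul]
            simp
    have i1 : Integrable (fun p => V p * (∫ q, V q ∂μ)) μ := iV.mul_const _
    have i2 : Integrable (fun p => 2 * (∫ q, W p q ^ 2 ∂μ)) μ := ic.const_mul _
    have i12 : Integrable (fun p => V p * (∫ q, V q ∂μ) + 2 * (∫ q, W p q ^ 2 ∂μ)) μ := i1.add i2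
    calc ∫ p, (∫ q, E p q ∂μ) ∂μ ≤
          ∫ p, T * (V p * (∫ q, V q ∂μ) + 2 * (∫ q, W p q ^ 2 ∂μ) + b) ∂μ :=
          integral_mono_ae hE1 ((i12.add (integrable_const b)).const_mul T)
            (hI.mono fun p hp => key p hp)
      _ = _ := by
          rw [integral_const_mul, integral_add i12 (integrable_const _), integral_add i1 i2,
            integral_mul_const, integral_const_mul]
          simp

/-- Markov with the majorant -/
lemma markov {T : ℝ} {F : ℝ → ℝ} (hF0 : ∀ t, 0 ≤ F t) (hF : IntegrableOn F (Icc T (2 * T)))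
    {c R : ℝ} (hc : 0 < c) (hR : (∫ t in Icc T (2 * T), F t) ≤ c * R) (S : Set ℝ)
    (hS : ∀ t ∈ S, t ∈ Icc T (2 * T) ∧ c ≤ F t) : volume S ≤ ENNReal.ofReal R := by
  have h := mul_meas_ge_le_integral_of_nonneg (μ := volume.restrict (Icc T (2 * T)))
    (Filter.Eventually.of_forall hF0) hF c
  have h2 : (volume.restrict (Icc T (2 * T))).real {x | c ≤ F x} ≤ R := by
    have := h.trans hR
    exact le_of_mul_le_mul_left this hc
  calc volume S ≤ volume ({x | c ≤ F x} ∩ Icc T (2 * T)) :=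
        measure_mono fun t ht => ⟨(hS t ht).2, (hS t ht).1⟩
    _ = (volume.restrict (Icc T (2 * T))) {x | c ≤ F x} :=
        (Measure.restrict_apply' measurableSet_Icc).symm
    _ = ENNReal.ofReal ((volume.restrict (Icc T (2 * T))).real {x | c ≤ F x}) :=
        (ofReal_measureReal).symm
    _ ≤ ENNReal.ofReal R := ENNReal.ofReal_le_ofReal h2

theorem t_FIN8 : J_FIN8 := by
  intro hDET hGM hM24 hCI hFUB N g C1 hC1 hCnt hMom B hB
  obtain ⟨Cd, Td, hCd, hTd, hD⟩ := hDET C1 B hC1 hB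
  obtain ⟨Cg, Tg, hCg, hTg, hG⟩ := hGM N g C1 hC1 hCnt hMom B hB
  obtain ⟨Cm, Tm, hCm, hTm, hM⟩ := hM24 N hCnt.mono hMom B hB
  obtain ⟨Ci, hCi, hI⟩ := hCI
  have hC'0 : 0 < Ci ^ 2 + Ci / 2 + 2 * Cm := by positivity
  refine ⟨(Ci ^ 2 + Ci / 2 + 2 * Cm + 1) / 2 + Cd * (1 + Cg), max Td (max Tg Tm), by positivity,
    le_max_of_le_left hTd, ?_⟩
  intro T hT Λ hΛ1 hΛ2 K hK
  have hTd' : Td ≤ T := (le_max_left _ _).trans hT
  have hTg' : Tg ≤ T := ((le_max_left _ _).trans (le_max_right _ _)).trans hT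
  have hTm' : Tm ≤ T := ((le_max_right _ _).trans (le_max_right _ _)).trans hT
  have hT10 : 10 ≤ T := hTd.trans hTd'
  have hT0 : 0 < T := by linarith
  have hL : 0 < Real.log T := Real.log_pos (by linarith)
  have hl : 0 < ell T Λ := by
    unfold ell
    have := Real.pi_pos
    positivity
  have hDT := hD N g hCnt T hTd' Λ hΛ1 hΛ2
  obtain ⟨hG1, hG2⟩ := hG T hTg' Λ hΛ1 hΛ2
  have hMT := hM T hTm' Λ hΛ1 hΛ2
  obtain ⟨hprob, iD, iD2, e1, e2, iA, iE1, iE2⟩ := hFUB N hCnt.mono T (ell T Λ) hT10 hl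
  obtain ⟨c1, c2, c3⟩ := hI T Λ hT10 hΛ1
  have hlog : 0 ≤ Real.log Λ := Real.log_nonneg hΛ1
  generalize hQd : 1 + Real.log Λ = Q at *
  generalize hld : ell T Λ = l at *
  generalize hLd : Real.log T = L at *
  have hQ : 1 ≤ Q := by linarith
  have hQ0 : 0 < Q := by linarith
  generalize hmd : Real.log Λ / (2 * Real.pi ^ 2) = m at *
  have hm0 : 0 ≤ m := by
    rw [← hmd]
    positivity
  have hmQ : m ≤ Q := by
    rw [← hmd]
    have h3 := Real.pi_gt_three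
    have h4 : (1 : ℝ) ≤ 2 * Real.pi ^ 2 := by nlinarith
    have h5 : Real.log Λ / (2 * Real.pi ^ 2) ≤ Real.log Λ := div_le_self hlog h4
    linarith
  have hs1 : 1 ≤ Q ^ (3 / 4 : ℝ) := Real.one_le_rpow hQ (by norm_num)
  have hq1 : Q ^ (1 / 2 : ℝ) ≤ Q ^ (3 / 4 : ℝ) :=
    Real.rpow_le_rpow_of_exponent_le hQ (by norm_num)
  have hs2 : Q ^ (3 / 2 : ℝ) = (Q ^ (3 / 4 : ℝ)) ^ 2 := by
    rw [← Real.rpow_natCast, ← Real.rpow_mul hQ0.le]
    norm_num
  have hqQ : Q * Q ^ (1 / 2 : ℝ) = (Q ^ (3 / 4 : ℝ)) ^ 2 := by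
    rw [← hs2]
    nth_rewrite 1 [← Real.rpow_one Q]
    rw [← Real.rpow_add hQ0]
    norm_num
  have hq0 : 0 < Q ^ (1 / 2 : ℝ) := Real.rpow_pos_of_pos hQ0 _
  rw [hs2] at hMT
  generalize hsd : Q ^ (3 / 4 : ℝ) = s at *
  generalize hqd : Q ^ (1 / 2 : ℝ) = q at *
  have hs0 : 0 < s := by linarith
  have hae : ∀ᵐ p ∂(mu2 l), p ∈ Icc (0 : ℝ) l ×ˢ Icc (0 : ℝ) l := by
    unfold mu2
    exact Measure.ae_smul_measure (ae_restrict_mem (measurableSet_Icc.prod measurableSet_Icc)) _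
  have hWb : ∀ p ∈ Icc (0 : ℝ) l ×ˢ Icc (0 : ℝ) l, ∀ r ∈ Icc (0 : ℝ) l ×ˢ Icc (0 : ℝ) l,
      Cv L p r ^ 2 ≤ (Ci * Q) ^ 2 := by
    rintro ⟨p1, p2⟩ ⟨hp1, hp2⟩ ⟨r1, r2⟩ ⟨hr1, hr2⟩
    have a1 := c3 (p1, r2) ⟨hp1, hr2⟩
    have a2 := c3 (p2, r1) ⟨hp2, hr1⟩
    have a3 := c3 (p1, r1) ⟨hp1, hr1⟩
    have a4 := c3 (p2, r2) ⟨hp2, hr2⟩
    unfold Cv
    apply sq_le_sq'
    · simp only
      linarith [a1.1, a2.1, a3.2, a4.2]
    · simp only
      linarith [a1.2, a2.2, a3.1, a4.1]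
  obtain ⟨m1, m2⟩ := moments (T := T) hae (Vv_cont L hL.le) (Cv_cont L hL.le) (D := Ci * Q)
    (D' := (Ci * Q) ^ 2) (a := Cm * q) (b := Cm * s ^ 2) c3 hWb iA iE1 iE2
    (by
      intro p hp
      have h1 := (abs_le.1 (hMT p p hp hp).1).1
      have h2 : Vv L p - Cm * q ≤ 1 / T * ∫ t in T..(2 * T), Uu N p t ^ 2 := by linarith
      have h3 := mul_le_mul_of_nonneg_left h2 hT0.le
      have h4 : T * (1 / T * ∫ t in T..(2 * T), Uu N p t ^ 2) =
          ∫ t in T..(2 * T), Uu N p t ^ 2 := by field_simp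
      linarith)
    (by
      intro p hp r hr
      have h1 := (abs_le.1 (hMT p r hp hr).2).2
      have h2 : 1 / T * (∫ t in T..(2 * T), Uu N p t ^ 2 * Uu N r t ^ 2) ≤
          Vv L p * Vv L r + 2 * Cv L p r ^ 2 + Cm * s ^ 2 := by linarith
      have h3 := mul_le_mul_of_nonneg_left h2 hT0.le
      have h4 : T * (1 / T * ∫ t in T..(2 * T), Uu N p t ^ 2 * Uu N r t ^ 2) =
          ∫ t in T..(2 * T), Uu N p t ^ 2 * Uu N r t ^ 2 := by field_simp
      linarith)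
  generalize hvd : (∫ p, Vv L p ∂(mu2 l)) = v at *
  generalize hwd : (∫ p, (∫ q, Cv L p q ^ 2 ∂(mu2 l)) ∂(mu2 l)) = w at *
  have hvar : (∫ t in T..(2 * T), Dv N l t ^ 2) - 2 * m * (∫ t in T..(2 * T), Dv N l t) +
      m ^ 2 * T ≤ (Ci ^ 2 + Ci / 2 + 2 * Cm) * s ^ 2 * T := by
    rw [e1, e2]
    have h1 : m * (T * (v - Cm * q)) ≤
        m * ∫ p, (∫ t in T..(2 * T), Uu N p t ^ 2) ∂(mu2 l) := mul_le_mul_of_nonneg_left m1 hm0
    have h2 : (1 / 2 * v - m) ^ 2 ≤ Ci ^ 2 := by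
      have := abs_le.1 c1
      exact sq_le_sq' this.1 this.2
    have h3 : Cm * (m * q) ≤ Cm * s ^ 2 := by
      apply mul_le_mul_of_nonneg_left _ hCm.le
      rw [← hqQ]
      exact mul_le_mul_of_nonneg_right hmQ hq0.le
    have h4 : 1 ≤ s ^ 2 := one_le_pow₀ hs1
    have h5 : v ^ 2 / 4 + w / 2 + Cm * s ^ 2 / 4 - m * v + Cm * (m * q) + m ^ 2 ≤
        (Ci ^ 2 + Ci / 2 + 2 * Cm) * s ^ 2 := by
      have h6 : v ^ 2 / 4 - m * v + m ^ 2 = (1 / 2 * v - m) ^ 2 := by ring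
      have h7 : Ci ^ 2 ≤ Ci ^ 2 * s ^ 2 := le_mul_of_one_le_right (by positivity) h4
      have h8 : Ci / 2 ≤ Ci / 2 * s ^ 2 := le_mul_of_one_le_right (by positivity) h4
      have h9 : 0 ≤ Cm * s ^ 2 := by positivity
      linarith
    have h6 := mul_le_mul_of_nonneg_left h5 hT0.le
    linarith
  have hTT : T ≤ 2 * T := by linarith
  have f1 : (∫ t in Icc T (2 * T), Dv N l t) = ∫ t in T..(2 * T), Dv N l t := by
    rw [intervalIntegral.integral_of_le hTT, integral_Icc_eq_integral_Ioc]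
  have f2 : (∫ t in Icc T (2 * T), Dv N l t ^ 2) = ∫ t in T..(2 * T), Dv N l t ^ 2 := by
    rw [intervalIntegral.integral_of_le hTT, integral_Icc_eq_integral_Ioc]
  have f3 : (∫ t in Icc T (2 * T), Gl N l t ^ 2) = ∫ t in T..(2 * T), Gl N l t ^ 2 := by
    rw [intervalIntegral.integral_of_le hTT, integral_Icc_eq_integral_Ioc]
  have iD' : Integrable (fun t => Dv N l t) (volume.restrict (Icc T (2 * T))) := iD
  have iD2' : Integrable (fun t => Dv N l t ^ 2) (volume.restrict (Icc T (2 * T))) := iD2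
  have iG' : Integrable (fun t => Gl N l t ^ 2) (volume.restrict (Icc T (2 * T))) := hG2
  have j1 : Integrable (fun t => 1 / (2 * s) * Dv N l t ^ 2)
    (volume.restrict (Icc T (2 * T))) := iD2'.const_mul _
  have j2 : Integrable (fun t => m / s * Dv N l t)
    (volume.restrict (Icc T (2 * T))) := iD'.const_mul _
  have j3 : Integrable (fun _ : ℝ => m ^ 2 / (2 * s) + s / 2 + Cd)
    (volume.restrict (Icc T (2 * T))) := integrable_const _
  have j4 : Integrable (fun t => Cd * Gl N l t ^ 2)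
    (volume.restrict (Icc T (2 * T))) := iG'.const_mul _
  have j12 : Integrable (fun t => 1 / (2 * s) * Dv N l t ^ 2 - m / s * Dv N l t)
    (volume.restrict (Icc T (2 * T))) := j1.sub j2
  have j123 : Integrable (fun t => 1 / (2 * s) * Dv N l t ^ 2 - m / s * Dv N l t +
    (m ^ 2 / (2 * s) + s / 2 + Cd)) (volume.restrict (Icc T (2 * T))) := j12.add j3
  have hFeq : (fun t => ((Dv N l t - m) ^ 2 / s + s) / 2 + Cd * (1 + Gl N l t ^ 2)) =
      fun t => 1 / (2 * s) * Dv N l t ^ 2 - m / s * Dv N l t +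
        (m ^ 2 / (2 * s) + s / 2 + Cd) + Cd * Gl N l t ^ 2 := by
    funext t
    field_simp
    ring
  refine markov (T := T) (F := fun t => ((Dv N l t - m) ^ 2 / s + s) / 2 +
    Cd * (1 + Gl N l t ^ 2)) ?_ ?_ (c := K * s) (by positivity) ?_ _ ?_
  · intro t
    positivity
  · rw [hFeq]
    exact j123.add j4
  · rw [hFeq, integral_add j123 j4, integral_add j12 j3, integral_sub j1 j2, integral_const_mul,
      integral_const_mul, integral_const_mul, f1, f2, f3]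
    have hconst : (∫ _ in Icc T (2 * T), (m ^ 2 / (2 * s) + s / 2 + Cd)) =
        T * (m ^ 2 / (2 * s) + s / 2 + Cd) := by
      rw [setIntegral_const, Real.volume_real_Icc_of_le hTT, smul_eq_mul]
      ring
    rw [hconst]
    have k1 : 1 / (2 * s) * (∫ t in T..(2 * T), Dv N l t ^ 2) -
        m / s * (∫ t in T..(2 * T), Dv N l t) + T * (m ^ 2 / (2 * s) + s / 2 + Cd) =
        1 / (2 * s) * ((∫ t in T..(2 * T), Dv N l t ^ 2) -
          2 * m * (∫ t in T..(2 * T), Dv N l t) + m ^ 2 * T) + T * (s / 2 + Cd) := by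
      field_simp
      ring
    rw [k1]
    have k2 : 1 / (2 * s) * ((∫ t in T..(2 * T), Dv N l t ^ 2) -
          2 * m * (∫ t in T..(2 * T), Dv N l t) + m ^ 2 * T) ≤
        1 / (2 * s) * ((Ci ^ 2 + Ci / 2 + 2 * Cm) * s ^ 2 * T) :=
      mul_le_mul_of_nonneg_left hvar (by positivity)
    have k3 : 1 / (2 * s) * ((Ci ^ 2 + Ci / 2 + 2 * Cm) * s ^ 2 * T) =
        (Ci ^ 2 + Ci / 2 + 2 * Cm) * s * T / 2 := by
      field_simp
    have k4 : Cd * (∫ t in T..(2 * T), Gl N l t ^ 2) ≤ Cd * (Cg * T * s) := by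
      apply mul_le_mul_of_nonneg_left _ hCd.le
      exact hG1.trans (mul_le_mul_of_nonneg_left hq1 (by positivity))
    have k5 : T * Cd ≤ T * Cd * s := le_mul_of_one_le_right (by positivity) hs1
    have k6 : K * s * (((Ci ^ 2 + Ci / 2 + 2 * Cm + 1) / 2 + Cd * (1 + Cg)) * T / K) =
        ((Ci ^ 2 + Ci / 2 + 2 * Cm + 1) / 2 + Cd * (1 + Cg)) * T * s := by
      field_simp
    rw [k6]
    linarith
  · rintro t ⟨ht, hlt⟩
    refine ⟨ht, ?_⟩
    have h1 := hDT t ht.1 ht.2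
    have h2 : |D3 N l t - m| ≤ |Dv N l t - m| + Cd * (1 + Gl N l t ^ 2) := by
      calc |D3 N l t - m| = |(D3 N l t - Dv N l t) + (Dv N l t - m)| := by ring_nf
        _ ≤ |D3 N l t - Dv N l t| + |Dv N l t - m| := abs_add_le _ _
        _ ≤ _ := by linarith
    have h3 : |Dv N l t - m| ≤ ((Dv N l t - m) ^ 2 / s + s) / 2 := by
      rw [← sq_abs]
      have h4 : 0 ≤ (|Dv N l t - m| - s) ^ 2 / s := by positivity
      have h5 : (|Dv N l t - m| - s) ^ 2 / s =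
          |Dv N l t - m| ^ 2 / s + s - 2 * |Dv N l t - m| := by
        field_simp
        ring
      linarith
    linarith

end Pool.Agent.U694.MV8
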